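import Pool.Agent.helper56.NR.Spec

/-!
# Project nr: (MP_af9036_an), module FLN: no line field if all small scales are expanding
(adapted from `Pool/Agent/helper59/EX/FI2.lean`)
-/

set_option autoImplicit false

open Complex Metric Set Filter Topology MeasureTheory Pool.Agent.helper98.ILF

open EX (ff)

noncomputable section

namespace NR

theorem FLN (hBRX : BRX_stmt) (hLMZ : LMZ_stmt) (hRCT : RCT_stmt) (hSTR : EX.STR_stmt)
    (hNZR : EX.NZR_stmt) : FLN_stmt := by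
  obtain ⟨M1, hM1, hB⟩ := hBRX
  obtain ⟨M2, hM2, hR⟩ := hRCT
  refine ⟨max M1 M2, hM1.trans (le_max_left _ _), ?_⟩
  intro n c ξ₀ hn hξ₀ hint hc hne hE
  rintro ⟨μ, hμ⟩
  have hn2 : 2 ≤ n := by omega
  have hzero : ∀ k : ℕ, volume (UP.Lam n c (1 / ((k : ℝ) + 1))) = 0 := by
    intro k
    have hk : (0 : ℝ) < 1 / ((k : ℝ) + 1) := by positivity
    obtain ⟨δ, hδ0, hδ1, hbr⟩ := hB n c (max M1 M2) ξ₀ hn2 (le_max_left _ _) hξ₀ hint hc hne hE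
      (1 / ((k : ℝ) + 1)) hk
    exact hLMZ n c (1 / ((k : ℝ) + 1)) δ hn2 hk hδ0 hδ1 hint hbr
  have hrec : ∀ᵐ x : ℂ, x ∈ filled n c → ∀ ε > (0 : ℝ), ∃ k : ℕ, ‖(ff n c)^[k] x‖ < ε := by
    have h1 : ∀ᵐ x : ℂ, ∀ k : ℕ, x ∉ UP.Lam n c (1 / ((k : ℝ) + 1)) := by
      rw [ae_all_iff]
      intro k
      exact measure_eq_zero_iff_ae_notMem.1 (hzero k)
    filter_upwards [h1] with x hx hxf ε hε
    obtain ⟨m, hm⟩ := exists_nat_one_div_lt hε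
    have h2 := hx m
    by_contra hcon
    refine h2 ⟨hxf, fun k => ?_⟩
    by_contra h3
    exact hcon ⟨k, (not_le.1 h3).trans hm⟩
  have hstr := hSTR n c μ hn hμ
  have hnzr := hNZR n c (by omega)
  obtain ⟨x, hx, hs, hr, hz⟩ : ∃ x : ℂ, μ x ≠ 0 ∧
      (μ x ≠ 0 → ∀ q : ℝ, q < 1 → ∃ T : ℕ, EX.Star n c x q T) ∧
      (x ∈ filled n c → ∀ ε > (0 : ℝ), ∃ k : ℕ, ‖(ff n c)^[k] x‖ < ε) ∧
      (∀ k : ℕ, (ff n c)^[k] x ≠ 0) := by
    have hall := hstr.and (hrec.and hnzr)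
    by_contra hcon
    have hsub : {z | μ z ≠ 0} ⊆ {x | ¬ ((μ x ≠ 0 → ∀ q : ℝ, q < 1 → ∃ T : ℕ, EX.Star n c x q T) ∧
      (x ∈ filled n c → ∀ ε > (0 : ℝ), ∃ k : ℕ, ‖(ff n c)^[k] x‖ < ε) ∧
      (∀ k : ℕ, (ff n c)^[k] x ≠ 0))} := by
      intro x hx hP
      exact hcon ⟨x, hx, hP.1, hP.2.1, hP.2.2⟩
    have h0 : volume {z | μ z ≠ 0} = 0 := measure_mono_null hsub (ae_iff.1 hall)
    have hpos := hμ.2.2.1
    rw [h0] at hpos
    exact lt_irrefl _ hpos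
  have hxJ : x ∈ juliaSet (ff n c) := hμ.2.2.2.1 hx
  have hxf : x ∈ filled n c := by
    have h1 := juliaSet_subset hn2 c hxJ
    exact (isCompact_filled n c).isClosed.frontier_subset h1
  exact hR n c x (max M1 M2) ξ₀ hn2 (le_max_right _ _) hξ₀ hint hne hE hz (hr hxf)
    (hs hx (10 / 11) (by norm_num))

end NR
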