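import Pool.Agent.helper84.NR.Spec

/-!
# Row LIN: linear algebra over `ZMod 2`
-/

set_option autoImplicit false
set_option linter.unusedSectionVars false

namespace Pool.Agent.helper84.NR

open scoped Classical
open Finset

section
variable {V F : Type} [Fintype V] [Fintype F]

/-- sum over the two faces of an edge outside `U` -/
noncomputable def LIN_P (M : PMap V F) (U : Sym2 V → Prop) :
    (F → ZMod 2) →ₗ[ZMod 2] ({e : Sym2 V // IsE M.toCyc e ∧ ¬ U e} → ZMod 2) where
  toFun S e := ∑ f, if OnE M.toCyc f e.1 then S f else 0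
  map_add' S T := by
    funext e
    simp only [Pi.add_apply]
    rw [← Finset.sum_add_distrib]
    exact Finset.sum_congr rfl fun f _ => by split_ifs <;> simp
  map_smul' c S := by
    funext e
    simp only [Pi.smul_apply, RingHom.id_apply, smul_eq_mul, Finset.mul_sum]
    exact Finset.sum_congr rfl fun f _ => by split_ifs <;> simp

/-- sum over the edges outside `U` at a vertex outside `W` -/
noncomputable def LIN_Q (M : PMap V F) (U : Sym2 V → Prop) (W : V → Prop) :
    ({e : Sym2 V // IsE M.toCyc e ∧ ¬ U e} → ZMod 2) →ₗ[ZMod 2] ({v : V // ¬ W v} → ZMod 2) where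
  toFun c v := ∑ e, if v.1 ∈ e.1 then c e else 0
  map_add' S T := by
    funext v
    simp only [Pi.add_apply]
    rw [← Finset.sum_add_distrib]
    exact Finset.sum_congr rfl fun f _ => by split_ifs <;> simp
  map_smul' c S := by
    funext v
    simp only [Pi.smul_apply, RingHom.id_apply, smul_eq_mul, Finset.mul_sum]
    exact Finset.sum_congr rfl fun f _ => by split_ifs <;> simp

theorem LIN_P_apply (M : PMap V F) (U : Sym2 V → Prop) (S : F → ZMod 2)
    (e : {e : Sym2 V // IsE M.toCyc e ∧ ¬ U e}) :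
    LIN_P M U S e = ∑ f, if OnE M.toCyc f e.1 then S f else 0 := rfl

theorem LIN_Q_apply (M : PMap V F) (U : Sym2 V → Prop) (W : V → Prop)
    (c : {e : Sym2 V // IsE M.toCyc e ∧ ¬ U e} → ZMod 2) (v : {v : V // ¬ W v}) :
    LIN_Q M U W c v = ∑ e, if v.1 ∈ e.1 then c e else 0 := rfl

theorem LIN_QP (hPAR : PAR_stmt) (M : PMap V F) (U : Sym2 V → Prop) (W : V → Prop)
    (hUW : ∀ e, U e → ∀ v ∈ e, W v) (S : F → ZMod 2) : LIN_Q M U W (LIN_P M U S) = 0 := by
  funext v
  rw [LIN_Q_apply]
  have h1 : ∀ e : {e : Sym2 V // IsE M.toCyc e ∧ ¬ U e},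
      (if v.1 ∈ e.1 then LIN_P M U S e else 0) =
        ∑ f, if (v.1 ∈ e.1 ∧ OnE M.toCyc f e.1) then S f else 0 := by
    intro e
    rw [LIN_P_apply]
    by_cases hv : v.1 ∈ e.1
    · simp only [hv, if_true, true_and]
    · simp only [hv, if_false, false_and, Finset.sum_const_zero]
  rw [Finset.sum_congr rfl fun e _ => h1 e, Finset.sum_comm]
  refine Finset.sum_eq_zero fun f _ => ?_
  rw [← Finset.sum_filter, Finset.sum_const, nsmul_eq_mul]
  have hcard : (univ.filter (fun e : {e : Sym2 V // IsE M.toCyc e ∧ ¬ U e} =>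
      v.1 ∈ e.1 ∧ OnE M.toCyc f e.1)).card =
      (univ.filter (fun e : Sym2 V => v.1 ∈ e ∧
        (∃ f', OnE M.toCyc f' e ∧ f' ∈ ({f} : Set F)) ∧
        ∃ g, OnE M.toCyc g e ∧ g ∉ ({f} : Set F))).card := by
    refine Finset.card_bij (fun e _ => e.1) ?_ ?_ ?_
    · intro e he
      rw [mem_filter] at he ⊢
      obtain ⟨-, hv, hf⟩ := he
      obtain ⟨g, hgf, hg, -⟩ := M.two e.1 f hf
      exact ⟨mem_univ _, hv, ⟨f, hf, rfl⟩, g, hg, hgf⟩
    · intro e _ e' _ h
      exact Subtype.ext h
    · intro e he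
      rw [mem_filter] at he
      obtain ⟨-, hv, ⟨f', hf', hff⟩, -⟩ := he
      have hff' : f' = f := hff
      subst hff'
      have hU : ¬ U e := fun hU => v.2 (hUW e hU v.1 hv)
      exact ⟨⟨e, ⟨f', hf'⟩, hU⟩, by rw [mem_filter]; exact ⟨mem_univ _, hv, hf'⟩, rfl⟩
  have hev : Even (univ.filter (fun e : Sym2 V => v.1 ∈ e ∧
        (∃ f', OnE M.toCyc f' e ∧ f' ∈ ({f} : Set F)) ∧
        ∃ g, OnE M.toCyc g e ∧ g ∉ ({f} : Set F))).card := by
    have h := hPAR V F M {f} v.1
    convert h
  rw [← hcard] at hev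
  obtain ⟨m, hm⟩ := hev
  rw [hm]
  push_cast
  rw [CharTwo.add_self_eq_zero, zero_mul]

theorem LIN_ker (M : PMap V F) (U : Sym2 V → Prop) :
    Module.finrank (ZMod 2) (LinearMap.ker (LIN_P M U)) ≤ Nat.card (Quot (lk M U)) := by
  have : Fintype (Quot (lk M U)) := Fintype.ofFinite _
  rw [Nat.card_eq_fintype_card]
  let T : (Quot (lk M U) → ZMod 2) →ₗ[ZMod 2] (F → ZMod 2) :=
    { toFun := fun t f => t (Quot.mk _ f)
      map_add' := fun _ _ => rfl
      map_smul' := fun _ _ => rfl }
  have hle : LinearMap.ker (LIN_P M U) ≤ LinearMap.range T := by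
    intro S hS
    rw [LinearMap.mem_ker] at hS
    have hresp : ∀ f g, lk M U f g → S f = S g := by
      rintro f g ⟨e, hU, hf, hg⟩
      by_cases hfg : g = f
      · rw [hfg]
      obtain ⟨g', hg'f, hg', hall⟩ := M.two e f hf
      have hgg : g = g' := by
        rcases hall g hg with h | h
        · exact absurd h hfg
        · exact h
      subst hgg
      have h0 : LIN_P M U S ⟨e, ⟨f, hf⟩, hU⟩ = 0 := by rw [hS]; rfl
      rw [LIN_P_apply] at h0
      rw [← Finset.sum_filter] at h0
      have hset : (univ.filter (fun h => OnE M.toCyc h e)) = ({f, g} : Finset F) := by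
        ext h
        rw [mem_filter, mem_insert, mem_singleton]
        constructor
        · rintro ⟨-, hh⟩
          exact hall h hh
        · rintro (rfl | rfl)
          · exact ⟨mem_univ _, hf⟩
          · exact ⟨mem_univ _, hg⟩
      simp only at h0
      rw [hset, Finset.sum_pair (fun h => hfg h.symm)] at h0
      exact CharTwo.add_eq_zero.1 h0
    exact ⟨fun t => Quot.lift S hresp t, rfl⟩
  calc Module.finrank (ZMod 2) (LinearMap.ker (LIN_P M U))
      ≤ Module.finrank (ZMod 2) (LinearMap.range T) := Submodule.finrank_mono hle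
    _ ≤ Module.finrank (ZMod 2) (Quot (lk M U) → ZMod 2) := LinearMap.finrank_range_le T
    _ = Fintype.card (Quot (lk M U)) := Module.finrank_fintype_fun_eq_card _

/-- indicator of a vertex -/
noncomputable def LIN_d (W : V → Prop) (v : V) : {v : V // ¬ W v} → ZMod 2 :=
  fun v' => if v'.1 = v then 1 else 0

theorem LIN_d_W (W : V → Prop) (v : V) (hv : W v) : LIN_d W v = 0 := by
  funext v'
  show (if v'.1 = v then (1 : ZMod 2) else 0) = 0
  rw [if_neg]
  intro h
  exact v'.2 (h ▸ hv)

theorem LIN_edge (hEDG : EDG_stmt) (M : PMap V F) (U : Sym2 V → Prop) (W : V → Prop)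
    (hUW : ∀ e, U e → ∀ v ∈ e, W v) (f : F) (u v : V) (h : OnE M.toCyc f s(u, v)) :
    LIN_d W u + LIN_d W v ∈ LinearMap.range (LIN_Q M U W) := by
  by_cases hU : U s(u, v)
  · rw [LIN_d_W W u (hUW _ hU u (Sym2.mem_mk_left _ _)), LIN_d_W W v (hUW _ hU v (Sym2.mem_mk_right _ _)),
      add_zero]
    exact Submodule.zero_mem _
  have huv : u ≠ v := ((hEDG V F M).1 f u v h).2.2
  refine ⟨Pi.single ⟨s(u, v), ⟨f, h⟩, hU⟩ 1, ?_⟩
  funext w
  rw [LIN_Q_apply]
  rw [Finset.sum_eq_single ⟨s(u, v), ⟨f, h⟩, hU⟩]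
  · rw [Pi.single_eq_same]
    show (if w.1 ∈ s(u, v) then (1 : ZMod 2) else 0) =
      (if w.1 = u then (1 : ZMod 2) else 0) + (if w.1 = v then (1 : ZMod 2) else 0)
    by_cases h1 : w.1 = u
    · have h2 : w.1 ≠ v := fun h2 => huv (h1.symm.trans h2)
      rw [if_pos (by rw [Sym2.mem_iff]; exact Or.inl h1), if_pos h1, if_neg h2, add_zero]
    · by_cases h2 : w.1 = v
      · rw [if_pos (by rw [Sym2.mem_iff]; exact Or.inr h2), if_neg h1, if_pos h2, zero_add]
      · rw [if_neg, if_neg h1, if_neg h2, add_zero]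
        rw [Sym2.mem_iff]
        rintro (h | h)
        · exact h1 h
        · exact h2 h
  · intro e _ he
    rw [Pi.single_eq_of_ne he]
    exact ite_self _
  · intro h'
    exact absurd (mem_univ _) h'

theorem LIN_surj (hEDG : EDG_stmt) (M : PMap V F) (U : Sym2 V → Prop) (W : V → Prop)
    (hW : ∃ v, W v) (hUW : ∀ e, U e → ∀ v ∈ e, W v) :
    LinearMap.range (LIN_Q M U W) = ⊤ := by
  set R := LinearMap.range (LIN_Q M U W) with hR
  have hcl : ∀ f u v, OnE M.toCyc f s(u, v) → (LIN_d W u ∈ R ↔ LIN_d W v ∈ R) := by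
    intro f u v h
    have h1 := LIN_edge hEDG M U W hUW f u v h
    constructor
    · intro h2
      exact (Submodule.add_mem_iff_right R h2).1 h1
    · intro h2
      exact (Submodule.add_mem_iff_left R h2).1 h1
  have hface : ∀ f k, LIN_d W (M.bd f k) ∈ R ↔ LIN_d W (M.bd f 0) ∈ R := by
    intro f k
    induction k with
    | zero => exact Iff.rfl
    | succ k ih => exact (hcl f (M.bd f k) (M.bd f (k + 1)) ⟨k, rfl⟩).symm.trans ih
  have hall : ∀ f g, LIN_d W (M.bd f 0) ∈ R → LIN_d W (M.bd g 0) ∈ R := by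
    intro f g hf
    refine M.conn {f | LIN_d W (M.bd f 0) ∈ R} ?_ f g hf
    intro e f g hfe hge hfS
    obtain ⟨k, hk⟩ := hfe
    obtain ⟨l, hl⟩ := hge
    have h1 : LIN_d W (M.bd f k) ∈ R := (hface f k).2 hfS
    have h2 : LIN_d W (M.bd f (k + 1)) ∈ R := (hface f (k + 1)).2 hfS
    have h3 : M.bd g l ∈ s(M.bd f k, M.bd f (k + 1)) := by
      rw [← hk, hl]
      exact Sym2.mem_mk_left _ _
    rw [Sym2.mem_iff] at h3
    show LIN_d W (M.bd g 0) ∈ R
    rw [← hface g l]
    rcases h3 with h3 | h3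
    · rw [h3]; exact h1
    · rw [h3]; exact h2
  have hd : ∀ v, LIN_d W v ∈ R := by
    intro v
    obtain ⟨w, hw⟩ := hW
    obtain ⟨f, k, hk⟩ := M.cover w
    obtain ⟨g, l, hl⟩ := M.cover v
    have h1 : LIN_d W (M.bd f 0) ∈ R := by
      rw [← hface f k, hk, LIN_d_W W w hw]
      exact Submodule.zero_mem _
    rw [← hl, hface g l]
    exact hall f g h1
  rw [eq_top_iff]
  intro c _
  have hc : c = ∑ v : {v : V // ¬ W v}, c v • LIN_d W v.1 := by
    funext w
    rw [Finset.sum_apply]
    rw [Finset.sum_eq_single w]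
    · show c w = c w • (if w.1 = w.1 then (1 : ZMod 2) else 0)
      rw [if_pos rfl, smul_eq_mul, mul_one]
    · intro v _ hv
      show c v • (if w.1 = v.1 then (1 : ZMod 2) else 0) = 0
      rw [if_neg (fun h => hv (Subtype.ext h).symm), smul_zero]
    · intro h
      exact absurd (mem_univ _) h
  rw [hc]
  exact Submodule.sum_mem _ fun v _ => Submodule.smul_mem _ _ (hd v.1)

theorem LIN_count (hEDG : EDG_stmt) (hPAR : PAR_stmt) (M : PMap V F) (U : Sym2 V → Prop) (W : V → Prop)
    (hW : ∃ v, W v) (hUW : ∀ e, U e → ∀ v ∈ e, W v) :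
    Fintype.card {v : V // ¬ W v} + Fintype.card F ≤
      Fintype.card {e : Sym2 V // IsE M.toCyc e ∧ ¬ U e} + Nat.card (Quot (lk M U)) := by
  have h1 := LinearMap.finrank_range_add_finrank_ker (LIN_Q M U W)
  rw [LIN_surj hEDG M U W hW hUW, finrank_top, Module.finrank_fintype_fun_eq_card,
    Module.finrank_fintype_fun_eq_card] at h1
  have h2 := LinearMap.finrank_range_add_finrank_ker (LIN_P M U)
  rw [Module.finrank_fintype_fun_eq_card] at h2
  have h3 := LIN_ker M U
  have h4 : LinearMap.range (LIN_P M U) ≤ LinearMap.ker (LIN_Q M U W) := by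
    rintro _ ⟨S, rfl⟩
    rw [LinearMap.mem_ker]
    exact LIN_QP hPAR M U W hUW S
  have h5 := Submodule.finrank_mono h4
  omega

end

theorem LIN (hEDG : EDG_stmt) (hPAR : PAR_stmt) : LIN_stmt := by
  intro V F _ _ M U W hUE hW hUW
  have h := LIN_count hEDG hPAR M U W hW hUW
  have hE : (univ.filter (fun e : Sym2 V => IsE M.toCyc e)).card =
      Fintype.card {e : Sym2 V // IsE M.toCyc e ∧ ¬ U e} + (univ.filter (fun e : Sym2 V => U e)).card := by
    rw [Fintype.card_subtype, ← card_union_of_disjoint]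
    · congr 1
      ext e
      simp only [mem_filter, mem_univ, true_and, mem_union]
      constructor
      · intro he
        by_cases hU : U e
        · exact Or.inr hU
        · exact Or.inl ⟨he, hU⟩
      · rintro (he | he)
        · exact he.1
        · exact hUE e he
    · rw [disjoint_left]
      intro e he he'
      rw [mem_filter] at he he'
      exact he.2.2 he'.2
  have hV : Fintype.card V = Fintype.card {v : V // ¬ W v} + (univ.filter (fun v => W v)).card := by
    rw [Fintype.card_subtype, ← card_union_of_disjoint]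
    · rw [← card_univ]
      congr 1
      ext v
      simp only [mem_filter, mem_univ, true_and, mem_union]
      tauto
    · rw [disjoint_left]
      intro e he he'
      rw [mem_filter] at he he'
      exact he.2 he'.2
  unfold chi
  omega

end Pool.Agent.helper84.NR
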